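import Pool.Agent.H369.SM.Stm

/-!
SM12: the multiplicity at the nodes, from `S_nd0`, `S_chi`, `S_oh`, `S_mem`.
-/

set_option autoImplicit false

namespace Pool.Agent.H100.SM

open Pool.Agent.TH549.CK TensorProduct Pool.Agent.H369.SM

section

variable {F 𝕂 P : Type} [Field F] [Field 𝕂] [Algebra F 𝕂]

/-- the expansion of the functions at a node -/
theorem exists_ev (C : Crv F 𝕂 P) {m : ℕ} (N : Nodes P m) (i : Fin m) :
    ∃ ev : MB C N →+* PowerSeries (PowerSeries F),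
      (∀ f, P7.th F (ev f) = C.EvL (N.p i) (f : PowerSeries 𝕂)) ∧
      ∀ f, P7.th F (swp (ev f)) = C.EvL (N.q i) (f : PowerSeries 𝕂) := by
  have h : ∀ f : MB C N, ∃ y : PowerSeries (PowerSeries F),
      P7.th F y = C.EvL (N.p i) (f : PowerSeries 𝕂) ∧
      P7.th F (swp y) = C.EvL (N.q i) (f : PowerSeries 𝕂) := fun f => f.2.1.2 i
  choose g hg1 hg2 using h
  refine ⟨⟨⟨⟨g, ?_⟩, ?_⟩, ?_, ?_⟩, hg1, hg2⟩
  · apply P7.th_inj
    rw [hg1, map_one]
    show C.EvL (N.p i) (1 : PowerSeries 𝕂) = 1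
    rw [map_one]
  · intro x y
    apply P7.th_inj
    rw [hg1, map_mul, hg1, hg1]
    show C.EvL (N.p i) ((x : PowerSeries 𝕂) * (y : PowerSeries 𝕂)) = _
    rw [map_mul]
  · apply P7.th_inj
    show P7.th F (g 0) = P7.th F 0
    rw [hg1, map_zero]
    show C.EvL (N.p i) (0 : PowerSeries 𝕂) = 0
    rw [map_zero]
  · intro x y
    apply P7.th_inj
    show P7.th F (g (x + y)) = P7.th F (g x + g y)
    rw [hg1, map_add, hg1, hg1]
    show C.EvL (N.p i) ((x : PowerSeries 𝕂) + (y : PowerSeries 𝕂)) = _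
    rw [map_add]

/-- the coefficients of `v ^ 0` -/
theorem coeff_EvL (C : Crv F 𝕂 P) (x : P) (f : PowerSeries 𝕂) (y : PowerSeries (PowerSeries F))
    (h : P7.th F y = C.EvL x f) (a : ℕ) :
    PowerSeries.coeff a (PowerSeries.coeff 0 y) = (C.E x (PowerSeries.coeff 0 f)).coeff a := by
  have h1 := congrArg (fun z => (PowerSeries.coeff 0 z).coeff (a : ℤ)) h
  simp only [P7.th, Crv.EvL, RingHom.comp_apply, PowerSeries.coeff_map, PowerSeries.coeff_rescale,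
    pow_zero, one_mul] at h1
  rw [PowerSeries.coeff_coe, if_neg (by omega)] at h1
  rw [← h1, Int.natAbs_natCast]

end

theorem nd (h1 : S_nd0) (h2 : S_chi) (h3 : S_oh) (_h4 : S_mem) : S_nd := by
  intro F 𝕂 P _ _ _ _ C m N K _ _ _ r e E hE o γ hG i a b hab
  obtain ⟨χ, hχ1, hχ2, hχ3, hχ4⟩ := h2 F 𝕂 P C m N K
  obtain ⟨ev, hev1, hev2⟩ := exists_ev C N i
  have hO : ∀ c : PowerSeries F, oh F 𝕂 c ∈ MB C N := fun c =>
    ⟨(h3 F 𝕂 P C m N c).1, 0, (h3 F 𝕂 P C m N c).2.1⟩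
  have hEχ : ∀ x, E x = χ (e x) := by
    intro x
    apply Subtype.ext
    apply HahnSeries.ext
    funext k
    rw [hE x k, hχ1 (e x) k]
  simp only [hEχ] at hG
  have hev3 : ∀ c : PowerSeries F, ev ⟨oh F 𝕂 c, hO c⟩ = uv F c := by
    intro c
    apply P7.th_inj
    rw [hev1]
    exact (h3 F 𝕂 P C m N c).2.2.1 (N.p i)
  have hev4 : ∀ c : PowerSeries F, (swp.comp ev) ⟨oh F 𝕂 c, hO c⟩ = uv F c := by
    intro c
    show swp (ev ⟨oh F 𝕂 c, hO c⟩) = uv F c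
    rw [hev3]
    exact (h3 F 𝕂 P C m N c).2.2.2.1
  have hp : ∀ (f : MB C N) (a : ℕ), PowerSeries.coeff a (PowerSeries.coeff 0 (ev f)) =
      (C.E (N.p i) (PowerSeries.coeff 0 (f : PowerSeries 𝕂))).coeff a := fun f a =>
    coeff_EvL C (N.p i) f (ev f) (hev1 f) a
  have hq : ∀ (f : MB C N) (a : ℕ), PowerSeries.coeff 0 (PowerSeries.coeff a (ev f)) =
      (C.E (N.q i) (PowerSeries.coeff 0 (f : PowerSeries 𝕂))).coeff a := fun f a => by
    rw [← coeff_EvL C (N.q i) f (swp (ev f)) (hev2 f) a, coeff_coeff_swp]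
  constructor
  · have h5 := h1 F K (MB C N) (RK K C N) (fun c => ⟨oh F 𝕂 c, hO c⟩) χ hχ2
      (fun c => hχ3 c (hO c)) hχ4 ev hev3 r e o γ hG a b hab
    simp only [hp, hq] at h5
    exact h5
  · have h5 := h1 F K (MB C N) (RK K C N) (fun c => ⟨oh F 𝕂 c, hO c⟩) χ hχ2
      (fun c => hχ3 c (hO c)) hχ4 (swp.comp ev) hev4 r e o γ hG a b hab
    simp only [RingHom.comp_apply, coeff_coeff_swp, hp, hq] at h5
    exact h5

end Pool.Agent.H100.SM
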